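import Pool.Agent.helper86.OF.SpecM

/-!
MP_c62920_co, project of, module MA1: the hypotheses of the core theorem.
-/

open scoped BigOperators

namespace Pool.Agent.OF

noncomputable section

open Classical

lemma MA1_or {α : Type} (s : Finset α) (p q r : α → Prop) [DecidablePred p] [DecidablePred q]
    [DecidablePred r] (hr : ∀ i ∈ s, r i ↔ (p i ∨ q i)) (h : ∀ i ∈ s, p i → ¬ q i) :
    (s.filter r).card = (s.filter p).card + (s.filter q).card := by
  rw [← Finset.card_union_of_disjoint]
  · congr 1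
    ext i
    simp only [Finset.mem_filter, Finset.mem_union]
    constructor
    · rintro ⟨h1, h2⟩
      rcases (hr i h1).1 h2 with h3 | h3
      · exact Or.inl ⟨h1, h3⟩
      · exact Or.inr ⟨h1, h3⟩
    · rintro (⟨h1, h2⟩ | ⟨h1, h2⟩)
      · exact ⟨h1, (hr i h1).2 (Or.inl h2)⟩
      · exact ⟨h1, (hr i h1).2 (Or.inr h2)⟩
  · rw [Finset.disjoint_left]
    intro i hi hi'
    exact h i (Finset.mem_filter.1 hi).1 (Finset.mem_filter.1 hi).2 (Finset.mem_filter.1 hi').2

lemma MA1_orc {α : Type} (s : Finset α) (p q r : α → Prop)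
    (hr : ∀ i ∈ s, r i ↔ (p i ∨ q i)) (h : ∀ i ∈ s, p i → ¬ q i) :
    (s.filter r).card = (s.filter p).card + (s.filter q).card := MA1_or s p q r hr h

lemma MA1_mem {V : Type} [Fintype V] (R : SimpleGraph V) (x w : V)
    (h : w ∈ Finset.univ.filter fun w => R.Adj x w) : R.Adj x w := (Finset.mem_filter.1 h).2

lemma MA1_even {V : Type} (Z : Finset V) (g : V → V) (h1 : ∀ x ∈ Z, g x ∈ Z)
    (h2 : ∀ x ∈ Z, g (g x) = x) (h3 : ∀ x ∈ Z, g x ≠ x) : Even Z.card := by
  have h : ∑ x ∈ Z, (1 : ZMod 2) = 0 :=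
    Finset.sum_involution (fun x _ => g x) (fun x _ => by decide) (fun x hx _ => h3 x hx)
      (fun x hx => h1 x hx) (fun x hx => h2 x hx)
  rw [Finset.sum_const, nsmul_eq_mul, mul_one] at h
  exact (ZMod.natCast_eq_zero_iff_even).1 h

lemma MA1_ep {V : Type} (R : SimpleGraph V) (P Q : Finset V) :
    ∑ x ∈ P, dgs R Q x = ∑ x ∈ Q, dgs R P x := by
  unfold dgs
  simp_rw [Finset.card_filter]
  rw [Finset.sum_comm]
  refine Finset.sum_congr rfl fun x _ => Finset.sum_congr rfl fun y _ => ?_
  have : R.Adj y x ↔ R.Adj x y := R.adj_comm y x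
  by_cases h : R.Adj y x
  · rw [if_pos h, if_pos (this.1 h)]
  · rw [if_neg h, if_neg (fun h' => h (this.2 h'))]

/-- the degree counted in a set which contains all neighbours -/
lemma MA1_dg {V : Type} [Fintype V] (R : SimpleGraph V) (Q : Finset V) (x : V)
    (h : ∀ w, R.Adj x w → w ∈ Q) : dg R x = dgs R Q x := by
  unfold dg dgs
  congr 1
  ext w
  simp only [Finset.mem_filter, Finset.mem_univ, true_and]
  exact ⟨fun h' => ⟨h w h', h'⟩, fun h' => h'.2⟩

theorem MA1 (hSCN : SCN_stmt) : MA1_stmt := by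
  intro ε ζ θ U q0 hε hζ hθ
  refine ⟨θ / 2, ⌈2 * (q0 : ℝ) / θ⌉₊, by positivity, ?_⟩
  intro V _ G D X c T A F Md c2 Rs e q hN hDl hDu hT hF hFl hFu hspl hXA hHsF hMdX hMdc hlit hM
    hqD he hinj hsur
  have hNθ : (q0 : ℝ) ≤ θ / 2 * Fintype.card V := by
    have h1 := (Nat.le_ceil (2 * (q0 : ℝ) / θ)).trans (Nat.cast_le.2 hN)
    rw [div_le_iff₀ hθ] at h1
    linarith
  have hMdr : (Md.card : ℝ) ≤ q0 := by exact_mod_cast hMdc
  set K := KG G X Md Rs with hK
  set O := outG G X with hO
  have hKadj : ∀ v w, K.Adj v w ↔ (G.Adj v w ∧ ¬ (v ∈ X \ Md ∧ w ∈ X \ Md)) ∧ ¬ Rs.Adj v w :=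
    fun v w => Iff.rfl
  have hOadj : ∀ v w, O.Adj v w ↔ G.Adj v w ∧ ¬ (v ∈ X ∧ w ∈ X) := fun v w => Iff.rfl
  -- edges from `X` to its complement
  have hOK : ∀ v w, w ∉ X → G.Adj v w → K.Adj v w := by
    intro v w hw hG
    refine (hKadj v w).2 ⟨⟨hG, fun h => hw (Finset.mem_sdiff.1 h.2).1⟩, fun h => ?_⟩
    rcases (hM.res v w h).1 with ⟨_, h2⟩ | ⟨h1, _⟩
    · exact hw (Finset.mem_sdiff.1 h2).1
    · exact hw (hMdX h1)
  have hOc : ∀ v w, w ∉ X → G.Adj v w → c2 s(v, w) = c s(v, w) := fun v w hw hG =>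
    hM.ext v w ((hOadj v w).2 ⟨hG, fun h => hw h.2⟩)
  have hasOK : ∀ x ∈ X, ∀ i, has O c x i → has K c2 x i := by
    rintro x hx i ⟨w, hw, hc⟩
    have hwX : w ∉ X := fun h => ((hOadj x w).1 hw).2 ⟨hx, h⟩
    have hG := ((hOadj x w).1 hw).1
    exact ⟨w, hOK x w hwX hG, (hOc x w hwX hG).trans hc⟩
  have hasKO : ∀ x w i, w ∉ X → K.Adj x w → c2 s(x, w) = i → has O c x i := by
    intro x w i hw hadj hc
    have hG := ((hKadj x w).1 hadj).1.1
    exact ⟨w, (hOadj x w).2 ⟨hG, fun h => hw h.2⟩, (hOc x w hw hG).symm.trans hc⟩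
  have hasF : ∀ x ∈ X \ Md, ∀ i ∈ F, has K c2 x i ↔ has O c x i := by
    intro x hx i hi
    refine ⟨?_, hasOK x (Finset.mem_sdiff.1 hx).1 i⟩
    rintro ⟨w, hw, hc⟩
    by_cases hwX : w ∈ X
    · exfalso
      have hwM : w ∈ Md := by
        by_contra h
        exact ((hKadj x w).1 hw).1.2 ⟨hx, Finset.mem_sdiff.2 ⟨hwX, h⟩⟩
      refine hM.nF w hwM x (Finset.mem_sdiff.1 hx).1 hw.symm ?_
      rw [Sym2.eq_swap, hc]
      exact hi
    · exact hasKO x w i hwX hw hc
  -- counting colours
  have cK : ∀ x, ((Finset.range D).filter fun i => has K c2 x i).card = dg K x :=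
    fun x => hSCN V K D c2 hM.pec x
  have cO : ∀ x, ((Finset.range D).filter fun i => has O c x i).card = dg O x :=
    fun x => hSCN V O D c hT.pec x
  have cH : ∀ x ∈ X \ Md, ((Finset.range q).filter fun i => x ∈ (X \ Md).filter
      fun x => e i ∈ T x ∨ has K c2 x (e i)).card =
      ((Finset.range D \ F).filter fun j => j ∈ T x).card +
        ((Finset.range D \ F).filter fun j => has K c2 x j).card := by
    intro x hx
    rw [← MA1_or (Finset.range D \ F) (fun j => j ∈ T x) (fun j => has K c2 x j)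
      (fun j => j ∈ T x ∨ has K c2 x j) (fun _ _ => Iff.rfl)
      (fun j _ hj => hM.tok x (Finset.mem_sdiff.1 hx).1 j hj)]
    refine Finset.card_bij (fun i _ => e i) ?_ ?_ ?_
    · intro i hi
      obtain ⟨h1, h2⟩ := Finset.mem_filter.1 hi
      have h3 := he i (Finset.mem_range.1 h1)
      exact Finset.mem_filter.2 ⟨Finset.mem_sdiff.2 ⟨Finset.mem_range.2 h3.1, h3.2⟩,
        (Finset.mem_filter.1 h2).2⟩
    · intro i hi j hj hij
      exact hinj i (Finset.mem_range.1 (Finset.mem_filter.1 hi).1) j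
        (Finset.mem_range.1 (Finset.mem_filter.1 hj).1) hij
    · intro k hk
      obtain ⟨h1, h2⟩ := Finset.mem_filter.1 hk
      obtain ⟨h3, h4⟩ := Finset.mem_sdiff.1 h1
      obtain ⟨i, hi, hik⟩ := hsur k (Finset.mem_range.1 h3) h4
      refine ⟨i, Finset.mem_filter.2 ⟨Finset.mem_range.2 hi, Finset.mem_filter.2 ⟨hx, ?_⟩⟩, hik⟩
      rw [hik]
      exact h2
  have cF : ∀ x ∈ X, (F.filter fun j => x ∈ Hs G X c T j).card =
      (F.filter fun j => j ∈ T x).card + (F.filter fun j => has O c x j).card := by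
    intro x hx
    refine MA1_or F _ _ _ (fun j _ => ?_) (fun j _ hj => ((hT.tok x hx).2.2 j hj))
    unfold Hs
    rw [Finset.mem_filter]
    exact ⟨fun h => h.2, fun h => ⟨hx, h⟩⟩
  have cT : ∀ x ∈ X, (T x).card = (F.filter fun j => j ∈ T x).card +
      ((Finset.range D \ F).filter fun j => j ∈ T x).card := by
    intro x hx
    have hsub := (hT.tok x hx).1
    rw [← Finset.card_union_of_disjoint]
    · congr 1
      ext j
      simp only [Finset.mem_union, Finset.mem_filter, Finset.mem_sdiff]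
      constructor
      · intro hj
        by_cases h : j ∈ F
        · exact Or.inl ⟨h, hj⟩
        · exact Or.inr ⟨⟨hsub hj, h⟩, hj⟩
      · rintro (h | h)
        · exact h.2
        · exact h.2
    · rw [Finset.disjoint_left]
      intro j hj hj'
      exact (Finset.mem_sdiff.1 (Finset.mem_filter.1 hj').1).2 (Finset.mem_filter.1 hj).1
  have cK2 : ∀ x, dg K x = (F.filter fun j => has K c2 x j).card +
      ((Finset.range D \ F).filter fun j => has K c2 x j).card := by
    intro x
    rw [← cK x, ← Finset.card_union_of_disjoint]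
    · congr 1
      ext j
      simp only [Finset.mem_union, Finset.mem_filter, Finset.mem_sdiff]
      constructor
      · rintro ⟨h1, h2⟩
        by_cases h : j ∈ F
        · exact Or.inl ⟨h, h2⟩
        · exact Or.inr ⟨⟨h1, h⟩, h2⟩
      · rintro (h | h)
        · exact ⟨hF h.1, h.2⟩
        · exact ⟨h.1.1, h.2⟩
    · rw [Finset.disjoint_left]
      intro j hj hj'
      exact (Finset.mem_sdiff.1 (Finset.mem_filter.1 hj').1).2 (Finset.mem_filter.1 hj).1
  have cFF : ∀ x ∈ X \ Md, (F.filter fun j => has K c2 x j).card =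
      (F.filter fun j => has O c x j).card := by
    intro x hx
    congr 1
    ext j
    simp only [Finset.mem_filter]
    exact ⟨fun h => ⟨h.1, (hasF x hx j h.1).1 h.2⟩, fun h => ⟨h.1, (hasF x hx j h.1).2 h.2⟩⟩
  -- degrees
  have dG : ∀ x ∈ X \ Md, dg G x = dg (onG G (X \ Md)) x + (dg K x + dg Rs x) := by
    intro x hx
    have h1 : dg G x = dg (onG G (X \ Md)) x + dg (outG G (X \ Md)) x := by
      refine MA1_orc Finset.univ _ _ _ (fun w _ => ?_) (fun w _ h h' => ?_)
      · constructor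
        · intro h
          by_cases hw : w ∈ X \ Md
          · exact Or.inl ⟨h, hx, hw⟩
          · exact Or.inr ⟨h, fun h' => hw h'.2⟩
        · rintro (h | h)
          · exact h.1
          · exact h.1
      · exact h'.2 ⟨h.2.1, h.2.2⟩
    have h2 : dg (outG G (X \ Md)) x = dg K x + dg Rs x := by
      refine MA1_orc Finset.univ _ _ _ (fun w _ => ?_) (fun w _ h h' => ?_)
      · constructor
        · intro h
          by_cases hw : Rs.Adj x w
          · exact Or.inr hw
          · exact Or.inl ((hKadj x w).2 ⟨h, hw⟩)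
        · rintro (h | h)
          · exact ((hKadj x w).1 h).1
          · refine ⟨hM.sub h, fun h' => ?_⟩
            rcases (hM.res x w h).1 with h3 | h3
            · exact (Finset.mem_sdiff.1 hx).2 h3.1
            · exact (Finset.mem_sdiff.1 h'.2).2 h3.1
      · exact ((hKadj x w).1 h).2 h'
    rw [h1, h2]
  have dK : ∀ x ∈ X \ Md, dg K x ≤ dgs G Xᶜ x + Md.card := by
    intro x hx
    unfold dg dgs
    refine (Finset.card_le_card ?_).trans (Finset.card_union_le _ _)
    intro w hw
    have h1 : K.Adj x w := MA1_mem K x w hw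
    have h2 := (hKadj x w).1 h1
    by_cases hwX : w ∈ X
    · refine Finset.mem_union_right _ ?_
      by_contra h
      exact h2.1.2 ⟨hx, Finset.mem_sdiff.2 ⟨hwX, h⟩⟩
    · exact Finset.mem_union_left _
        (Finset.mem_filter.2 ⟨Finset.mem_compl.2 hwX, h2.1.1⟩)
  have dR : ∀ x ∈ X \ Md, dg Rs x ≤ Md.card := by
    intro x hx
    unfold dg dgs
    refine Finset.card_le_card ?_
    intro w hw
    have h1 : Rs.Adj x w := (Finset.mem_filter.1 hw).2
    rcases (hM.res x w h1).1 with h3 | h3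
    · exact absurd h3.1 (Finset.mem_sdiff.1 hx).2
    · exact h3.1
  have dO : ∀ x ∈ X, dg O x ≤ dgs G Xᶜ x := by
    intro x hx
    unfold dg dgs
    refine Finset.card_le_card ?_
    intro w hw
    have h1 : O.Adj x w := (Finset.mem_filter.1 hw).2
    have h2 := (hOadj x w).1 h1
    exact Finset.mem_filter.2 ⟨Finset.mem_compl.2 fun h => h2.2 ⟨hx, h⟩, h2.1⟩
  have cardX : (X ∩ A).card + (X \ A).card = X.card := Finset.card_inter_add_card_sdiff X A
  constructor
  · -- onX
    intro v w h
    exact ⟨h.2.1, h.2.2⟩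
  · -- big
    have : ((q : ℝ) + F.card) = D := by exact_mod_cast hqD
    rw [this]
    exact hDl
  · rw [hqD]
    exact hDu
  · exact hFl
  · exact hFu
  · -- deg
    intro x hx
    have hxX := (Finset.mem_sdiff.1 hx).1
    have e1 := cH x hx
    have e2 := cF x hxX
    have e3 := cT x hxX
    have e4 := cK2 x
    have e5 := cFF x hx
    have e6 := dG x hx
    have e7 := (hT.tok x hxX).2.1
    rw [hqD]
    beta_reduce at e1 ⊢
    omega
  · -- Hs
    intro i hi
    obtain ⟨hiD, hiF⟩ := he i hi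
    refine ⟨Finset.filter_subset _ _, ?_, ?_⟩
    · -- cardinality
      have h1 : ((X \ Md).filter fun x => e i ∈ T x ∨ has K c2 x (e i)) ⊆
          Hs G X c T (e i) ∪ Md.image (ptn K c2 (e i)) := by
        intro x hx
        obtain ⟨hx1, hx2⟩ := Finset.mem_filter.1 hx
        have hxX := (Finset.mem_sdiff.1 hx1).1
        rcases hx2 with h2 | ⟨w, hw, hc⟩
        · exact Finset.mem_union_left _ (Finset.mem_filter.2 ⟨hxX, Or.inl h2⟩)
        · by_cases hwX : w ∈ X
          · refine Finset.mem_union_right _ (Finset.mem_image.2 ⟨w, ?_, ?_⟩)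
            · by_contra h
              exact ((hKadj x w).1 hw).1.2 ⟨hx1, Finset.mem_sdiff.2 ⟨hwX, h⟩⟩
            · have hex : ∃ u, K.Adj w u ∧ c2 s(w, u) = e i := ⟨x, hw.symm, by
                rw [Sym2.eq_swap]; exact hc⟩
              unfold ptn
              rw [dif_pos hex]
              refine hM.pec.2 w _ _ hex.choose_spec.1 hw.symm ?_
              rw [hex.choose_spec.2, Sym2.eq_swap, hc]
          · exact Finset.mem_union_left _
              (Finset.mem_filter.2 ⟨hxX, Or.inr (hasKO x w _ hwX hw hc)⟩)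
      have h2 := (Finset.card_le_card h1).trans (Finset.card_union_le _ _)
      have h3 := hT.bdd (e i) hiD
      have h4 : (Md.image (ptn K c2 (e i))).card ≤ Md.card := Finset.card_image_le
      beta_reduce at h2 ⊢
      omega
    · -- parity
      set i' := e i with hi'
      set Hi : Finset V := (X \ Md).filter fun x => i' ∈ T x ∨ has K c2 x i' with hHi
      set Y : Finset V := X \ Hs G X c T i' with hY
      have memY : ∀ x, x ∈ Y ↔ x ∈ X ∧ i' ∉ T x ∧ ¬ has O c x i' := by
        intro x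
        rw [hY, Finset.mem_sdiff]
        unfold Hs
        rw [Finset.mem_filter]
        tauto
      set Z : Finset V := Y.filter fun x => x ∈ Md ∨ x ∈ Hi with hZ
      have hsplit : (X \ Md) \ Hi = Y \ Z := by
        ext x
        have lhs : x ∈ (X \ Md) \ Hi ↔
            (x ∈ X ∧ x ∉ Md) ∧ ¬ ((x ∈ X ∧ x ∉ Md) ∧ (i' ∈ T x ∨ has K c2 x i')) := by
          rw [Finset.mem_sdiff, hHi, Finset.mem_filter, Finset.mem_sdiff]
        have rhs : x ∈ Y \ Z ↔ (x ∈ X ∧ i' ∉ T x ∧ ¬ has O c x i') ∧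
            ¬ ((x ∈ X ∧ i' ∉ T x ∧ ¬ has O c x i') ∧ (x ∈ Md ∨ x ∈ Hi)) := by
          rw [Finset.mem_sdiff, hZ, Finset.mem_filter, memY]
        rw [lhs, rhs]
        constructor
        · rintro ⟨⟨h1, h2⟩, h3⟩
          have h4 : i' ∉ T x := fun h => h3 ⟨⟨h1, h2⟩, Or.inl h⟩
          have h5 : ¬ has K c2 x i' := fun h => h3 ⟨⟨h1, h2⟩, Or.inr h⟩
          refine ⟨⟨h1, h4, fun h => h5 (hasOK x h1 i' h)⟩, ?_⟩
          rintro ⟨_, h6 | h6⟩
          · exact h2 h6
          · rcases (Finset.mem_filter.1 h6).2 with h7 | h7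
            · exact h4 h7
            · exact h5 h7
        · rintro ⟨⟨h1, h4, h5⟩, h6⟩
          have h2 : x ∉ Md := fun h => h6 ⟨⟨h1, h4, h5⟩, Or.inl h⟩
          exact ⟨⟨h1, h2⟩, fun h => h6 ⟨⟨h1, h4, h5⟩, Or.inr
            (Finset.mem_filter.2 ⟨Finset.mem_sdiff.2 h.1, h.2⟩)⟩⟩
      -- every vertex of `Z` has a partner in `X`
      have hpart : ∀ x ∈ Z, ∃ w, K.Adj x w ∧ c2 s(x, w) = i' ∧ w ∈ X := by
        intro x hx
        obtain ⟨hx1, hx2⟩ := Finset.mem_filter.1 hx
        obtain ⟨h1, h4, h5⟩ := (memY x).1 hx1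
        have h6 : has K c2 x i' := by
          rcases hx2 with h | h
          · rcases hM.all x h i' hiD hiF with h7 | h7
            · exact absurd h7 h4
            · exact h7
          · rcases (Finset.mem_filter.1 h).2 with h7 | h7
            · exact absurd h7 h4
            · exact h7
        obtain ⟨w, hw, hc⟩ := h6
        refine ⟨w, hw, hc, ?_⟩
        by_contra hwX
        exact h5 (hasKO x w i' hwX hw hc)
      have hptn : ∀ x w, K.Adj x w → c2 s(x, w) = i' → ptn K c2 i' x = w := by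
        intro x w hw hc
        have hex : ∃ u, K.Adj x u ∧ c2 s(x, u) = i' := ⟨w, hw, hc⟩
        unfold ptn
        rw [dif_pos hex]
        exact hM.pec.2 x _ _ hex.choose_spec.1 hw (hex.choose_spec.2.trans hc.symm)
      have hZev : Even Z.card := by
        refine MA1_even Z (ptn K c2 i') ?_ ?_ ?_
        · intro x hx
          obtain ⟨w, hw, hc, hwX⟩ := hpart x hx
          rw [hptn x w hw hc]
          have hc' : c2 s(w, x) = i' := by rw [Sym2.eq_swap]; exact hc
          have hasw : has K c2 w i' := ⟨x, hw.symm, hc'⟩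
          have hxX := ((memY x).1 (Finset.mem_filter.1 hx).1).1
          have hwY : w ∈ Y := by
            refine (memY w).2 ⟨hwX, fun h => hM.tok w hwX i' h hasw, ?_⟩
            rintro ⟨u, hu, hcu⟩
            have huX : u ∉ X := fun h => ((hOadj w u).1 hu).2 ⟨hwX, h⟩
            have hG := ((hOadj w u).1 hu).1
            have h8 : c2 s(w, u) = c2 s(w, x) := by
              rw [hOc w u huX hG, hcu, hc']
            have h9 := hM.pec.2 w u x (hOK w u huX hG) hw.symm h8
            exact huX (h9 ▸ hxX)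
          refine Finset.mem_filter.2 ⟨hwY, ?_⟩
          by_cases hwM : w ∈ Md
          · exact Or.inl hwM
          · exact Or.inr (Finset.mem_filter.2 ⟨Finset.mem_sdiff.2 ⟨hwX, hwM⟩, Or.inr hasw⟩)
        · intro x hx
          obtain ⟨w, hw, hc, hwX⟩ := hpart x hx
          have hc' : c2 s(w, x) = i' := by rw [Sym2.eq_swap]; exact hc
          rw [hptn x w hw hc, hptn w x hw.symm hc']
        · intro x hx
          obtain ⟨w, hw, hc, hwX⟩ := hpart x hx
          rw [hptn x w hw hc]
          exact hw.ne'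
      have hYev : Even Y.card := by
        have h1 := hT.par i' hiD
        have h2 : Hs G X c T i' ⊆ X := Finset.filter_subset _ _
        have h3 : Y.card = X.card - (Hs G X c T i').card := Finset.card_sdiff_of_subset h2
        have h4 := Finset.card_le_card h2
        rw [Nat.even_iff]
        omega
      have hZY : Z ⊆ Y := Finset.filter_subset _ _
      have h5 : ((X \ Md) \ Hi).card = Y.card - Z.card := by
        rw [hsplit]
        exact Finset.card_sdiff_of_subset hZY
      rw [h5]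
      exact (Nat.even_sub (Finset.card_le_card hZY)).2 ⟨fun _ => hZev, fun _ => hYev⟩
  · -- lit
    intro x hx
    have hxX := (Finset.mem_sdiff.1 hx).1
    have e1 := cH x hx
    have e2 := cF x hxX
    have e3 := cT x hxX
    have e4 := cK2 x
    have e5 := dK x hx
    have e6 := dR x hx
    have e7 := dO x hxX
    have e8 : (F.filter fun j => has O c x j).card ≤ dg O x := by
      rw [← cO x]
      exact Finset.card_le_card (Finset.filter_subset_filter _ hF)
    have e9 := hlit x hx
    beta_reduce at e1 ⊢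
    constructor
    · have h1 : ((Finset.range q).filter fun i => x ∈ (X \ Md).filter
          fun x => e i ∈ T x ∨ has K c2 x (e i)).card ≤ (dgs G Xᶜ x + (T x).card) + Md.card := by
        omega
      have h2 : ((((Finset.range q).filter fun i => x ∈ (X \ Md).filter
          fun x => e i ∈ T x ∨ has K c2 x (e i)).card : ℕ) : ℝ) ≤
          ((dgs G Xᶜ x : ℝ) + (T x).card) + Md.card := by exact_mod_cast h1
      linarith
    · have h1 : (F.filter fun j => x ∈ Hs G X c T j).card + dg Rs x ≤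
          (dgs G Xᶜ x + (T x).card) + Md.card := by
        omega
      have h2 : (((F.filter fun j => x ∈ Hs G X c T j).card + dg Rs x : ℕ) : ℝ) ≤
          ((dgs G Xᶜ x : ℝ) + (T x).card) + Md.card := by exact_mod_cast h1
      linarith
  · -- bal
    set t : V → ℤ := fun x => ((F.filter fun j => x ∈ Hs G X c T j).card : ℤ) with ht
    set g : V → ℤ := fun x => (F.card : ℤ) - t x with hg
    have hsum : ∀ P : Finset V, ∑ x ∈ P, t x = ∑ j ∈ F, (((P.filter fun x =>
        x ∈ Hs G X c T j).card : ℕ) : ℤ) := by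
      intro P
      simp only [ht, Finset.card_filter]
      push_cast
      rw [Finset.sum_comm]
    have hfull : ∑ x ∈ X ∩ A, g x = ∑ x ∈ X \ A, g x := by
      simp only [hg]
      rw [Finset.sum_sub_distrib, Finset.sum_sub_distrib, hsum, hsum, Finset.sum_const,
        Finset.sum_const]
      have h1 : ∀ j ∈ F, ((((X ∩ A).filter fun x => x ∈ Hs G X c T j).card : ℕ) : ℤ) =
          ((((X \ A).filter fun x => x ∈ Hs G X c T j).card : ℕ) : ℤ) + (X.card % 2 : ℕ) := by
        intro j hj
        have h2 := hHsF j hj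
        have h3 : (X ∩ A).filter (fun x => x ∈ Hs G X c T j) = Hs G X c T j ∩ A := by
          ext x
          simp only [Finset.mem_filter, Finset.mem_inter]
          constructor
          · rintro ⟨⟨_, h⟩, h'⟩
            exact ⟨h', h⟩
          · rintro ⟨h', h⟩
            exact ⟨⟨(Finset.mem_filter.1 h').1, h⟩, h'⟩
        have h4 : (X \ A).filter (fun x => x ∈ Hs G X c T j) = Hs G X c T j \ A := by
          ext x
          simp only [Finset.mem_filter, Finset.mem_sdiff]
          constructor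
          · rintro ⟨⟨_, h⟩, h'⟩
            exact ⟨h', h⟩
          · rintro ⟨h', h⟩
            exact ⟨⟨(Finset.mem_filter.1 h').1, h⟩, h'⟩
        rw [h3, h4, h2]
        push_cast
        ring
      rw [Finset.sum_congr rfl h1, Finset.sum_add_distrib, Finset.sum_const, hXA]
      simp only [nsmul_eq_mul]
      push_cast
      ring
    -- the reserved edges
    have hRs : ∀ P Q : Finset V, (∀ x ∈ P, ∀ w, Rs.Adj x w → w ∈ Q) →
        (∀ x ∈ Q, ∀ w, Rs.Adj x w → w ∈ P) → ∑ x ∈ P, dg Rs x = ∑ x ∈ Q, dg Rs x := by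
      intro P Q h1 h2
      rw [Finset.sum_congr rfl fun x hx => MA1_dg Rs Q x (h1 x hx),
        Finset.sum_congr rfl fun x hx => MA1_dg Rs P x (h2 x hx)]
      exact MA1_ep Rs P Q
    have hMd : ∀ v ∈ Md, (dg Rs v : ℤ) = g v := by
      intro v hv
      have := hM.deg v hv
      simp only [hg, ht]
      omega
    have r1 : ∑ x ∈ (X \ Md) ∩ A, dg Rs x = ∑ x ∈ Md \ A, dg Rs x := by
      refine hRs _ _ ?_ ?_
      · intro x hx w hw
        obtain ⟨h1, h2⟩ := Finset.mem_inter.1 hx
        obtain ⟨h3, h4⟩ := hM.res x w hw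
        rcases h3 with h3 | h3
        · exact absurd h3.1 (Finset.mem_sdiff.1 h1).2
        · exact Finset.mem_sdiff.2 ⟨h3.1, fun h => h4 ⟨fun _ => h, fun _ => h2⟩⟩
      · intro x hx w hw
        obtain ⟨h1, h2⟩ := Finset.mem_sdiff.1 hx
        obtain ⟨h3, h4⟩ := hM.res x w hw
        rcases h3 with h3 | h3
        · refine Finset.mem_inter.2 ⟨h3.2, ?_⟩
          by_contra h
          exact h4 ⟨fun h' => absurd h' h2, fun h' => absurd h' h⟩
        · exact absurd h1 (Finset.mem_sdiff.1 h3.2).2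
    have r2 : ∑ x ∈ (X \ Md) \ A, dg Rs x = ∑ x ∈ Md ∩ A, dg Rs x := by
      refine hRs _ _ ?_ ?_
      · intro x hx w hw
        obtain ⟨h1, h2⟩ := Finset.mem_sdiff.1 hx
        obtain ⟨h3, h4⟩ := hM.res x w hw
        rcases h3 with h3 | h3
        · exact absurd h3.1 (Finset.mem_sdiff.1 h1).2
        · refine Finset.mem_inter.2 ⟨h3.1, ?_⟩
          by_contra h
          exact h4 ⟨fun h' => absurd h' h2, fun h' => absurd h' h⟩
      · intro x hx w hw
        obtain ⟨h1, h2⟩ := Finset.mem_inter.1 hx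
        obtain ⟨h3, h4⟩ := hM.res x w hw
        rcases h3 with h3 | h3
        · exact Finset.mem_sdiff.2 ⟨h3.2, fun h => h4 ⟨fun _ => h, fun _ => h2⟩⟩
        · exact absurd h1 (Finset.mem_sdiff.1 h3.2).2
    have s1 : ∑ x ∈ X ∩ A, g x = ∑ x ∈ (X \ Md) ∩ A, g x + ∑ x ∈ Md ∩ A, g x := by
      rw [← Finset.sum_union]
      · congr 1
        ext x
        simp only [Finset.mem_union, Finset.mem_inter, Finset.mem_sdiff]
        constructor
        · rintro ⟨h1, h2⟩
          by_cases h : x ∈ Md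
          · exact Or.inr ⟨h, h2⟩
          · exact Or.inl ⟨⟨h1, h⟩, h2⟩
        · rintro (h | h)
          · exact ⟨h.1.1, h.2⟩
          · exact ⟨hMdX h.1, h.2⟩
      · rw [Finset.disjoint_left]
        intro x hx hx'
        exact (Finset.mem_sdiff.1 (Finset.mem_inter.1 hx).1).2 (Finset.mem_inter.1 hx').1
    have s2 : ∑ x ∈ X \ A, g x = ∑ x ∈ (X \ Md) \ A, g x + ∑ x ∈ Md \ A, g x := by
      rw [← Finset.sum_union]
      · congr 1
        ext x
        simp only [Finset.mem_union, Finset.mem_sdiff]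
        constructor
        · rintro ⟨h1, h2⟩
          by_cases h : x ∈ Md
          · exact Or.inr ⟨h, h2⟩
          · exact Or.inl ⟨⟨h1, h⟩, h2⟩
        · rintro (h | h)
          · exact ⟨h.1.1, h.2⟩
          · exact ⟨hMdX h.1, h.2⟩
      · rw [Finset.disjoint_left]
        intro x hx hx'
        exact (Finset.mem_sdiff.1 (Finset.mem_sdiff.1 hx).1).2 (Finset.mem_sdiff.1 hx').1
    have u1 : ∑ x ∈ (X \ Md) ∩ A, (dg Rs x : ℤ) = ∑ x ∈ Md \ A, g x := by
      have : ∑ x ∈ (X \ Md) ∩ A, (dg Rs x : ℤ) = ∑ x ∈ Md \ A, (dg Rs x : ℤ) := by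
        exact_mod_cast r1
      rw [this]
      exact Finset.sum_congr rfl fun x hx => hMd x (Finset.mem_sdiff.1 hx).1
    have u2 : ∑ x ∈ (X \ Md) \ A, (dg Rs x : ℤ) = ∑ x ∈ Md ∩ A, g x := by
      have : ∑ x ∈ (X \ Md) \ A, (dg Rs x : ℤ) = ∑ x ∈ Md ∩ A, (dg Rs x : ℤ) := by
        exact_mod_cast r2
      rw [this]
      exact Finset.sum_congr rfl fun x hx => hMd x (Finset.mem_inter.1 hx).1
    have v1 : ∀ P : Finset V, ∑ x ∈ P, ((F.card : ℤ) -
        (((F.filter fun j => x ∈ Hs G X c T j).card + dg Rs x : ℕ) : ℤ)) =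
        ∑ x ∈ P, g x - ∑ x ∈ P, (dg Rs x : ℤ) := by
      intro P
      rw [← Finset.sum_sub_distrib]
      refine Finset.sum_congr rfl fun x _ => ?_
      simp only [hg, ht]
      push_cast
      ring
    beta_reduce
    rw [v1, v1, u1, u2]
    linarith
  · -- spl
    intro x hx
    have hA : ∀ B : Finset V, dgs (onG G (X \ Md)) B x ≤ dgs G (X ∩ B) x ∧
        dgs G (X ∩ B) x ≤ dgs (onG G (X \ Md)) B x + (Md ∩ B).card := by
      intro B
      unfold dgs
      constructor
      · refine Finset.card_le_card fun w hw => ?_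
        obtain ⟨h1, h2⟩ := Finset.mem_filter.1 hw
        exact Finset.mem_filter.2 ⟨Finset.mem_inter.2 ⟨(Finset.mem_sdiff.1 h2.2.2).1, h1⟩, h2.1⟩
      · refine (Finset.card_le_card fun w hw => ?_).trans (Finset.card_union_le _ _)
        obtain ⟨h1, h2⟩ := Finset.mem_filter.1 hw
        obtain ⟨h3, h4⟩ := Finset.mem_inter.1 h1
        by_cases h : w ∈ Md
        · exact Finset.mem_union_right _ (Finset.mem_inter.2 ⟨h, h4⟩)
        · exact Finset.mem_union_left _ (Finset.mem_filter.2 ⟨h4, h2, hx,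
            Finset.mem_sdiff.2 ⟨h3, h⟩⟩)
    obtain ⟨a1, a2⟩ := hA A
    obtain ⟨b1, b2⟩ := hA Aᶜ
    have hXc : X ∩ Aᶜ = X \ A := by
      ext w
      simp
    have hMc : Md ∩ Aᶜ = Md \ A := by
      ext w
      simp
    rw [hXc] at b1 b2
    rw [hMc] at b2
    have hMdc2 : (Md ∩ A).card + (Md \ A).card = Md.card := Finset.card_inter_add_card_sdiff Md A
    have h0 := abs_le.1 (hspl x)
    have a1' : (dgs (onG G (X \ Md)) A x : ℝ) ≤ dgs G (X ∩ A) x := by exact_mod_cast a1
    have a2' : (dgs G (X ∩ A) x : ℝ) ≤ dgs (onG G (X \ Md)) A x + (Md ∩ A).card := by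
      exact_mod_cast a2
    have b1' : (dgs (onG G (X \ Md)) Aᶜ x : ℝ) ≤ dgs G (X \ A) x := by exact_mod_cast b1
    have b2' : (dgs G (X \ A) x : ℝ) ≤ dgs (onG G (X \ Md)) Aᶜ x + (Md \ A).card := by
      exact_mod_cast b2
    have c1 : ((Md ∩ A).card : ℝ) + (Md \ A).card = Md.card := by exact_mod_cast hMdc2
    have p1 : (0 : ℝ) ≤ (Md ∩ A).card := Nat.cast_nonneg _
    have p2 : (0 : ℝ) ≤ (Md \ A).card := Nat.cast_nonneg _
    rw [abs_le]
    constructor <;> linarith [h0.1, h0.2]
  · -- siz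
    have h1 : ((X \ Md) ∩ A).card + (Md ∩ A).card = (X ∩ A).card := by
      rw [← Finset.card_union_of_disjoint]
      · congr 1
        ext x
        simp only [Finset.mem_union, Finset.mem_inter, Finset.mem_sdiff]
        constructor
        · rintro (h | h)
          · exact ⟨h.1.1, h.2⟩
          · exact ⟨hMdX h.1, h.2⟩
        · rintro ⟨h1, h2⟩
          by_cases h : x ∈ Md
          · exact Or.inr ⟨h, h2⟩
          · exact Or.inl ⟨⟨h1, h⟩, h2⟩
      · rw [Finset.disjoint_left]
        intro x hx hx'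
        exact (Finset.mem_sdiff.1 (Finset.mem_inter.1 hx).1).2 (Finset.mem_inter.1 hx').1
    have h2 : ((X \ Md) \ A).card + (Md \ A).card = (X \ A).card := by
      rw [← Finset.card_union_of_disjoint]
      · congr 1
        ext x
        simp only [Finset.mem_union, Finset.mem_sdiff]
        constructor
        · rintro (h | h)
          · exact ⟨h.1.1, h.2⟩
          · exact ⟨hMdX h.1, h.2⟩
        · rintro ⟨h1, h2⟩
          by_cases h : x ∈ Md
          · exact Or.inr ⟨h, h2⟩
          · exact Or.inl ⟨⟨h1, h⟩, h2⟩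
      · rw [Finset.disjoint_left]
        intro x hx hx'
        exact (Finset.mem_sdiff.1 (Finset.mem_sdiff.1 hx).1).2 (Finset.mem_sdiff.1 hx').1
    have h3 : (Md ∩ A).card + (Md \ A).card = Md.card := Finset.card_inter_add_card_sdiff Md A
    have h4 : |(((X \ Md) ∩ A).card : ℤ) - ((X \ Md) \ A).card| ≤ ((U + q0 + 1 : ℕ) : ℤ) := by
      rw [abs_le]
      push_cast
      omega
    exact_mod_cast h4

end

end Pool.Agent.OF
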