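import Pool.Agent.helper86.OF.SpecL

/-!
MP_c62920_co, project of, module RND: a random subgraph.
-/

open scoped BigOperators

namespace Pool.Agent.OF

noncomputable section

open Classical

/-- the graph of the chosen edges -/
def RND_G {V : Type} (C : SimpleGraph V) (X : Finset (Sym2 V)) : SimpleGraph V where
  Adj v w := C.Adj v w ∧ s(v, w) ∈ X
  symm := ⟨fun v w h => ⟨h.1.symm, by rw [Sym2.eq_swap]; exact h.2⟩⟩
  loopless := ⟨fun v h => C.loopless.irrefl v h.1⟩

/-- the edges between two sets -/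
def RND_E {V : Type} (C : SimpleGraph V) (S T : Finset V) : Finset (Sym2 V) :=
  ((S ×ˢ T).filter fun q => C.Adj q.1 q.2).image fun q => s(q.1, q.2)

lemma RND_ep {V : Type} (G : SimpleGraph V) (S T : Finset V) :
    ep G S T = ((S ×ˢ T).filter fun q => G.Adj q.1 q.2).card := by
  rw [Finset.card_filter, Finset.sum_product]
  unfold ep dgs
  refine Finset.sum_congr rfl (fun v _ => ?_)
  rw [Finset.card_filter]

lemma RND_dg {V : Type} [Fintype V] (G : SimpleGraph V) (v : V) :
    dg G v = ep G {v} Finset.univ := by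
  unfold ep dg
  rw [Finset.sum_singleton]

lemma RND_inj {V : Type} (C : SimpleGraph V) (S T : Finset V)
    (h : Set.InjOn (fun q : V × V => s(q.1, q.2)) (S ×ˢ T : Finset (V × V))) :
    ep C S T = (RND_E C S T).card := by
  rw [RND_ep, RND_E, Finset.card_image_of_injOn]
  exact h.mono (by intro q hq; exact (Finset.mem_filter.1 hq).1)

lemma RND_inj2 {V : Type} (C : SimpleGraph V) (S T : Finset V) (X : Finset (Sym2 V))
    (h : Set.InjOn (fun q : V × V => s(q.1, q.2)) (S ×ˢ T : Finset (V × V))) :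
    ep (RND_G C X) S T = (X ∩ RND_E C S T).card := by
  have e : X ∩ RND_E C S T = ((S ×ˢ T).filter fun q => (RND_G C X).Adj q.1 q.2).image
      fun q => s(q.1, q.2) := by
    ext e
    simp only [RND_E, Finset.mem_inter, Finset.mem_image, Finset.mem_filter]
    constructor
    · rintro ⟨h1, q, ⟨h2, h3⟩, rfl⟩
      exact ⟨q, ⟨h2, ⟨h3, h1⟩⟩, rfl⟩
    · rintro ⟨q, ⟨h2, h3⟩, rfl⟩
      exact ⟨h3.2, q, ⟨h2, h3.1⟩, rfl⟩
  rw [RND_ep, e, Finset.card_image_of_injOn]
  exact h.mono (by intro q hq; exact (Finset.mem_filter.1 hq).1)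

lemma RND_single {V : Type} [Fintype V] (v : V) :
    Set.InjOn (fun q : V × V => s(q.1, q.2)) (({v} : Finset V) ×ˢ Finset.univ : Finset (V × V)) := by
  rintro ⟨a, b⟩ h1 ⟨c, d⟩ h2 h
  have e1 : v = a := by simpa using h1
  have e2 : v = c := by simpa using h2
  subst e1
  subst e2
  have h3 : b = d := Sym2.congr_right.1 h
  rw [h3]

lemma RND_disj {V : Type} (S T : Finset V) (hST : Disjoint S T) :
    Set.InjOn (fun q : V × V => s(q.1, q.2)) (S ×ˢ T : Finset (V × V)) := by
  rintro ⟨a, b⟩ h1 ⟨c, d⟩ h2 h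
  have e1 : a ∈ S ∧ b ∈ T := by simpa using h1
  have e2 : c ∈ S ∧ d ∈ T := by simpa using h2
  rcases Sym2.eq_iff.1 h with ⟨h3, h4⟩ | ⟨h3, h4⟩
  · have h5 : a = c := h3
    have h6 : b = d := h4
    rw [h5, h6]
  · have h5 : a = d := h3
    exact absurd e2.2 (h5 ▸ Finset.disjoint_left.1 hST e1.1)

/-- the numerical estimate -/
lemma RND_num (η : ℝ) (hη : 0 < η) : ∃ N0 : ℕ, ∀ n : ℕ, N0 ≤ n → 0 < n ∧
    (n : ℝ) * (2 * Real.exp (-(η ^ 2 * n / 2))) +
      4 ^ n * (2 * Real.exp (-(η ^ 2 * (n : ℝ) ^ 2 / 2))) < 1 := by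
  set a : ℝ := η ^ 2 / 2 with ha
  have ha0 : 0 < a := by positivity
  refine ⟨max 1 (max ⌈4 / a⌉₊ ⌈8 / a ^ 2⌉₊), fun n hn => ?_⟩
  have h1 : 1 ≤ n := (le_max_left _ _).trans hn
  have h2 : ⌈4 / a⌉₊ ≤ n := ((le_max_left _ _).trans (le_max_right _ _)).trans hn
  have h3 : ⌈8 / a ^ 2⌉₊ ≤ n := ((le_max_right _ _).trans (le_max_right _ _)).trans hn
  have h1' : (1 : ℝ) ≤ n := by exact_mod_cast h1
  have h2' : 4 ≤ a * n := by
    have := (Nat.le_ceil (4 / a)).trans (Nat.cast_le.2 h2)
    rw [div_le_iff₀ ha0] at this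
    linarith
  have h3' : 8 ≤ a ^ 2 * n := by
    have := (Nat.le_ceil (8 / a ^ 2)).trans (Nat.cast_le.2 h3)
    rw [div_le_iff₀ (by positivity)] at this
    linarith
  refine ⟨h1, ?_⟩
  have e1 : (n : ℝ) * (2 * Real.exp (-(η ^ 2 * n / 2))) < 1 / 2 := by
    have h4 : η ^ 2 * n / 2 = a * n := by rw [ha]; ring
    rw [h4]
    have h5 := Real.quadratic_le_exp_of_nonneg (x := a * n) (by positivity)
    have h6 : (4 : ℝ) * n ≤ (a * n) ^ 2 / 2 := by nlinarith
    have h7 : (4 : ℝ) * n < Real.exp (a * n) := by nlinarith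
    rw [Real.exp_neg]
    have h8 := Real.exp_pos (a * n)
    have h9 : (n : ℝ) * (2 * (Real.exp (a * n))⁻¹) = 2 * n / Real.exp (a * n) := by
      field_simp
    rw [h9, div_lt_iff₀ h8]
    linarith
  have e2 : (4 : ℝ) ^ n * (2 * Real.exp (-(η ^ 2 * (n : ℝ) ^ 2 / 2))) ≤ 1 / 2 := by
    have h4 : η ^ 2 * (n : ℝ) ^ 2 / 2 = a * n * n := by rw [ha]; ring
    rw [h4]
    have h5 : (2 : ℝ) ≤ Real.exp 1 := by
      have := Real.add_one_le_exp (1 : ℝ)
      linarith
    have h6 : (4 : ℝ) ≤ Real.exp 2 := by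
      have : Real.exp 2 = Real.exp 1 * Real.exp 1 := by rw [← Real.exp_add]; norm_num
      rw [this]
      nlinarith
    have h7 : (4 : ℝ) ^ n ≤ Real.exp (n * 2) := by
      rw [Real.exp_nat_mul]
      exact pow_le_pow_left₀ (by norm_num) h6 n
    have h8 : (4 : ℝ) ^ n * (2 * Real.exp (-(a * n * n))) ≤
        Real.exp (n * 2) * (2 * Real.exp (-(a * n * n))) :=
      mul_le_mul_of_nonneg_right h7 (by positivity)
    have h9 : Real.exp (n * 2) * (2 * Real.exp (-(a * n * n))) =
        2 * Real.exp (n * 2 + -(a * n * n)) := by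
      rw [Real.exp_add]; ring
    have h10 : (n : ℝ) * 2 + -(a * n * n) ≤ -2 := by nlinarith
    have h11 := Real.exp_le_exp.2 h10
    have h12 : Real.exp (-2) ≤ 1 / 4 := by
      rw [Real.exp_neg]
      rw [inv_le_comm₀ (by positivity) (by norm_num)]
      simpa using h6
    linarith
  linarith

lemma RND_ber (h : BER_stmt) (E : Type) [Fintype E] [inst : DecidableEq E] (p t B : ℝ) (hp : 0 ≤ p)
    (hp' : p ≤ 1) (ht : 0 < t) (hB : 0 < B) (E' : Finset E) (hE : (E'.card : ℝ) ≤ B) :
    ∑ R ∈ (Finset.univ : Finset (Finset E)).filter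
        (fun R => t < |(((R ∩ E').card : ℕ) : ℝ) - p * E'.card|),
      p ^ R.card * (1 - p) ^ (Fintype.card E - R.card) ≤ 2 * Real.exp (-(t ^ 2 / (2 * B))) := by
  have : inst = fun a b => propDecidable _ := Subsingleton.elim _ _
  subst this
  exact h E p t B hp hp' ht hB E' hE

theorem RND (hBER : BER_stmt) : RND_stmt := by
  intro η hη
  obtain ⟨N0, hN0⟩ := RND_num η hη
  refine ⟨N0, fun V _ C p hN hp0 hp1 => ?_⟩
  obtain ⟨hNpos, hnum⟩ := hN0 _ hN
  set N := Fintype.card V with hNdef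
  have hNr : (0 : ℝ) < N := by exact_mod_cast hNpos
  set w : Finset (Sym2 V) → ℝ :=
    fun X => p ^ X.card * (1 - p) ^ (Fintype.card (Sym2 V) - X.card) with hw
  have hw0 : ∀ X, 0 ≤ w X := fun X =>
    mul_nonneg (pow_nonneg hp0 _) (pow_nonneg (by linarith) _)
  have hw1 : ∑ X, w X = 1 := by
    have := Fintype.sum_pow_mul_eq_add_pow (Sym2 V) p (1 - p)
    rw [hw, this]
    simp
  -- the bad events
  set b₁ : V → Finset (Sym2 V) → Prop := fun v X =>
    η * N < |(((X ∩ RND_E C {v} Finset.univ).card : ℕ) : ℝ) -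
      p * (RND_E C {v} Finset.univ).card| with hb₁
  set b₂ : Finset V × Finset V → Finset (Sym2 V) → Prop := fun q X =>
    η * (N : ℝ) ^ 2 < |(((X ∩ RND_E C q.1 q.2).card : ℕ) : ℝ) - p * (RND_E C q.1 q.2).card| with hb₂
  have hB₁ : ∀ v, ∑ X ∈ Finset.univ.filter (fun X => b₁ v X), w X ≤
      2 * Real.exp (-(η ^ 2 * N / 2)) := by
    intro v
    have h1 : ((RND_E C {v} Finset.univ).card : ℝ) ≤ N := by
      rw [← RND_inj C {v} Finset.univ (RND_single v), RND_ep]
      have h2 : (((({v} : Finset V) ×ˢ Finset.univ : Finset (V × V)).filter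
          fun q => C.Adj q.1 q.2)).card ≤ N := by
        refine (Finset.card_filter_le _ _).trans ?_
        rw [Finset.card_product, Finset.card_singleton, one_mul, Finset.card_univ]
      exact_mod_cast h2
    have h2 := RND_ber hBER (Sym2 V) p (η * N) N hp0 hp1 (by positivity) hNr
      (RND_E C {v} Finset.univ) h1
    have h3 : (η * N) ^ 2 / (2 * (N : ℝ)) = η ^ 2 * N / 2 := by field_simp
    rw [h3] at h2
    have h4 : (Finset.univ.filter fun X => b₁ v X) = Finset.univ.filter fun X =>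
        η * N < |(((X ∩ RND_E C {v} Finset.univ).card : ℕ) : ℝ) -
          p * (RND_E C {v} Finset.univ).card| := by
      ext X
      constructor <;> intro h <;> exact Finset.mem_filter.2 (Finset.mem_filter.1 h)
    rw [h4]
    exact h2
  have hB₂ : ∀ q : Finset V × Finset V, ∑ X ∈ Finset.univ.filter (fun X => b₂ q X), w X ≤
      2 * Real.exp (-(η ^ 2 * (N : ℝ) ^ 2 / 2)) := by
    intro q
    have h1 : ((RND_E C q.1 q.2).card : ℝ) ≤ (N : ℝ) ^ 2 := by
      have h2 : (RND_E C q.1 q.2).card ≤ N ^ 2 := by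
        refine Finset.card_image_le.trans ((Finset.card_filter_le _ _).trans ?_)
        rw [Finset.card_product, sq]
        exact Nat.mul_le_mul (Finset.card_le_univ _) (Finset.card_le_univ _)
      exact_mod_cast h2
    have h2 := RND_ber hBER (Sym2 V) p (η * (N : ℝ) ^ 2) ((N : ℝ) ^ 2) hp0 hp1 (by positivity)
      (by positivity) (RND_E C q.1 q.2) h1
    have h3 : (η * (N : ℝ) ^ 2) ^ 2 / (2 * (N : ℝ) ^ 2) = η ^ 2 * (N : ℝ) ^ 2 / 2 := by
      field_simp
    rw [h3] at h2
    have h4 : (Finset.univ.filter fun X => b₂ q X) = Finset.univ.filter fun X =>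
        η * (N : ℝ) ^ 2 < |(((X ∩ RND_E C q.1 q.2).card : ℕ) : ℝ) -
          p * (RND_E C q.1 q.2).card| := by
      ext X
      constructor <;> intro h <;> exact Finset.mem_filter.2 (Finset.mem_filter.1 h)
    rw [h4]
    exact h2
  -- a good set
  have hgood : ∃ X, (∀ v, ¬ b₁ v X) ∧ ∀ q, ¬ b₂ q X := by
    by_contra hcon
    push Not at hcon
    have h1 : ∀ X, w X ≤ ∑ v, (if b₁ v X then w X else 0) + ∑ q, (if b₂ q X then w X else 0) := by
      intro X
      have p1 : ∀ v ∈ (Finset.univ : Finset V), 0 ≤ (if b₁ v X then w X else 0) := by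
        intro v _
        split_ifs
        · exact hw0 X
        · exact le_rfl
      have p2 : ∀ q ∈ (Finset.univ : Finset (Finset V × Finset V)),
          0 ≤ (if b₂ q X then w X else 0) := by
        intro v _
        split_ifs
        · exact hw0 X
        · exact le_rfl
      by_cases h : ∀ v, ¬ b₁ v X
      · obtain ⟨q, hq⟩ := hcon X h
        have h2 := Finset.single_le_sum p2 (Finset.mem_univ q)
        rw [if_pos hq] at h2
        have h3 := Finset.sum_nonneg p1
        linarith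
      · push Not at h
        obtain ⟨v, hv⟩ := h
        have h2 := Finset.single_le_sum p1 (Finset.mem_univ v)
        rw [if_pos hv] at h2
        have h3 := Finset.sum_nonneg p2
        linarith
    have h2 : ∑ X, w X ≤ ∑ X, (∑ v, (if b₁ v X then w X else 0) +
        ∑ q, (if b₂ q X then w X else 0)) := Finset.sum_le_sum fun X _ => h1 X
    rw [Finset.sum_add_distrib, Finset.sum_comm, hw1] at h2
    have h3 : ∑ X, ∑ q, (if b₂ q X then w X else 0) = ∑ q, ∑ X, (if b₂ q X then w X else 0) :=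
      Finset.sum_comm
    rw [h3] at h2
    have h4 : ∑ v, ∑ X, (if b₁ v X then w X else 0) ≤
        (N : ℝ) * (2 * Real.exp (-(η ^ 2 * N / 2))) := by
      have : ∀ v ∈ (Finset.univ : Finset V), ∑ X, (if b₁ v X then w X else 0) ≤
          2 * Real.exp (-(η ^ 2 * N / 2)) := by
        intro v _
        rw [← Finset.sum_filter]
        exact hB₁ v
      refine (Finset.sum_le_sum this).trans ?_
      rw [Finset.sum_const, nsmul_eq_mul, Finset.card_univ]
    have h5 : ∑ q, ∑ X, (if b₂ q X then w X else 0) ≤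
        4 ^ N * (2 * Real.exp (-(η ^ 2 * (N : ℝ) ^ 2 / 2))) := by
      have : ∀ q ∈ (Finset.univ : Finset (Finset V × Finset V)),
          ∑ X, (if b₂ q X then w X else 0) ≤ 2 * Real.exp (-(η ^ 2 * (N : ℝ) ^ 2 / 2)) := by
        intro v _
        rw [← Finset.sum_filter]
        exact hB₂ v
      refine (Finset.sum_le_sum this).trans ?_
      rw [Finset.sum_const, nsmul_eq_mul, Finset.card_univ, Fintype.card_prod,
        Fintype.card_finset, ← hNdef]
      have h6 : ((2 ^ N * 2 ^ N : ℕ) : ℝ) = 4 ^ N := by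
        rw [← mul_pow]; norm_num
      rw [h6]
    linarith
  obtain ⟨X, hX₁, hX₂⟩ := hgood
  refine ⟨RND_G C X, fun v w h => h.1, fun v => ?_, fun S T hST => ?_⟩
  · have h1 := hX₁ v
    rw [hb₁] at h1
    simp only [not_lt] at h1
    rw [RND_dg, RND_dg, RND_inj2 C _ _ X (RND_single v), RND_inj C _ _ (RND_single v)]
    exact h1
  · have h1 := hX₂ (S, T)
    rw [hb₂] at h1
    simp only [not_lt] at h1
    rw [RND_inj2 C _ _ X (RND_disj S T hST), RND_inj C _ _ (RND_disj S T hST)]
    exact h1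

end

end Pool.Agent.OF
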